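import Pool.Agent.Helper13_Conc.Tools
import Pool.Agent.Helper23_LAP.Stmts

/-!
# LAP: modules TUP and TLO (tails of sums of independent blocks)
-/

set_option autoImplicit false

namespace Pool.Agent.LAP.H44

open scoped Classical

theorem ex_eq_mean {U S : Type} [Fintype U] [Fintype S] (f : (U → S) → ℝ) :
    ex f = Pool.Agent.Helper13_Conc.mean f := by
  unfold ex Pool.Agent.Helper13_Conc.mean
  congr!

theorem pr_le {U S : Type} [Fintype U] [Fintype S] [Nonempty S] (A : Set (U → S)) (c : ℝ)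
    (h : ((Finset.univ.filter fun ω => ω ∈ A).card : ℝ) ≤ c * (Fintype.card (U → S) : ℝ)) :
    pr A ≤ c := by
  have h0 : (0 : ℝ) < (Fintype.card (U → S) : ℝ) := by
    exact_mod_cast Fintype.card_pos
  unfold pr
  rw [div_le_iff₀ h0]
  exact h

/-- TUP. -/
theorem tup : TUPStmt := by
  intro U S J _ _ _ I f Bk b e t μ hb he0 he1 hf hdep hdis hμ
  refine pr_le _ _ ?_
  have := Pool.Agent.Helper13_Conc.T1 (V := U) (α := S) I Bk hdis f (fun j hj => hdep j hj) b hb
    (fun j hj ω => (hf j hj ω).1) (fun j hj ω => (hf j hj ω).2) μ e t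
    (by simpa only [ex_eq_mean] using hμ) he0 he1
    (fun ω => ω ∈ {ω : U → S | (1 + e) * μ + t ≤ ∑ j ∈ I, f j ω}) (fun ω hω => hω)
  convert this

/-- TLO. -/
theorem tlo : TLOStmt := by
  intro U S J _ _ _ I f Bk b e t μ hb he0 he1 hμ0 hf hdep hdis hμ
  refine pr_le _ _ ?_
  have := Pool.Agent.Helper13_Conc.T2 (V := U) (α := S) I Bk hdis f (fun j hj => hdep j hj) b hb
    (fun j hj ω => (hf j hj ω).1) (fun j hj ω => (hf j hj ω).2) μ e t hμ0
    (by simpa only [ex_eq_mean] using hμ) he0 he1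
    (fun ω => ω ∈ {ω : U → S | ∑ j ∈ I, f j ω ≤ (1 - e) * μ - t}) (fun ω hω => hω)
  convert this

end Pool.Agent.LAP.H44
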